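import Pool.Agent.Helper12_XQ.Stmt
import Pool.Agent.Helper54_XQ.Lca

/-!
Squad XQ (MP_5b0138_an), module U_ALTA: the group A vanishes or has an exact order.
-/

set_option autoImplicit false

namespace Pool.Agent.XQ.U.H12

open MeasureTheory Filter Topology Real Set Pool.Agent.AEU Pool.Agent.AEU.H12 Pool.Agent.XQ
  Pool.Agent.XQ.U

theorem zb_pos {b : ℝ} (hb : b ∈ Ioo (1 : ℝ) 2) : 0 < zb b := by
  have hp := pi_pos
  have h1 : π / 2 < π / b := by
    apply div_lt_div_of_pos_left hp (by linarith [hb.1]) hb.2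
  have h2 : π / b < π := by
    rw [div_lt_iff₀ (by linarith [hb.1])]
    nlinarith [hb.1]
  have h3 : cos (π / b) < 0 := cos_neg_of_pi_div_two_lt_of_lt h1 (by linarith)
  unfold zb
  nlinarith

theorem mem_bb {p : ℝ × ℝ} (hp : OkA p) :
    (bb p).1 ∈ Ioo (1 : ℝ) 2 ∧ (bb p).2 ∈ Ioo (1 : ℝ) 2 :=
  ⟨H54.par_mem hp.1 hp.2.1, H54.par_mem hp.2.2.1 hp.2.2.2⟩

/-- density of a list -/
noncomputable def DL (l : List (ℝ × ℝ)) (z : ℝ) : ℝ :=
  (l.map fun p => DR (bb p).1 (bb p).2 z).sum

theorem DL_cons (p : ℝ × ℝ) (l : List (ℝ × ℝ)) (z : ℝ) :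
    DL (p :: l) z = DR (bb p).1 (bb p).2 z + DL l z := by
  unfold DL; simp

theorem DR_an (hHol : HolStmt) {b b' : ℝ} (hb : b ∈ Ioo (1 : ℝ) 2) (hb' : b' ∈ Ioo (1 : ℝ) 2) :
    AnalyticAt ℝ (DR b b') 0 := by
  have h1 := zb_pos hb
  have h2 := zb_pos hb'
  have hm : 0 < min (zb b) (zb b') := lt_min h1 h2
  exact hHol b b' (min (zb b) (zb b')) hb hb' (min_le_left _ _) (min_le_right _ _) 0
    ⟨by linarith, hm⟩

theorem DL_props (hDbd : DbdStmt) (hHol : HolStmt) (l : List (ℝ × ℝ)) (hl : ∀ p ∈ l, OkA p) :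
    Measurable (DL l) ∧ (∃ M : ℝ, ∀ z : ℝ, z ≤ 0 → |DL l z| ≤ M) ∧ AnalyticAt ℝ (DL l) 0 := by
  induction l with
  | nil =>
    have : DL [] = fun _ => 0 := by funext z; simp [DL]
    rw [this]
    exact ⟨measurable_const, ⟨0, fun z _ => by simp⟩, analyticAt_const⟩
  | cons p l ih =>
    obtain ⟨i1, ⟨M, hM⟩, i3⟩ := ih (fun q hq => hl q (by simp [hq]))
    have hp := hl p (by simp)
    obtain ⟨m1, m2⟩ := mem_bb hp
    obtain ⟨M', hM'⟩ := hDbd.2.2 _ _ m1 m2
    have : DL (p :: l) = fun z => DR (bb p).1 (bb p).2 z + DL l z := by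
      funext z; exact DL_cons p l z
    rw [this]
    refine ⟨(hDbd.1 _ _).add i1, ⟨M' + M, fun z hz => ?_⟩, (DR_an hHol m1 m2).add i3⟩
    exact (abs_add_le _ _).trans (add_le_add (hM' z hz) (hM z hz))

theorem exp_int {c : ℝ} (hc : 0 < c) : IntegrableOn (fun s : ℝ => rexp (-(c * s))) (Ioi 1) := by
  have := exp_neg_integrableOn_Ioi 1 hc
  refine this.congr_fun (fun s _ => ?_) measurableSet_Ioi
  simp [neg_mul]

theorem int_exp_D {D : ℝ → ℝ} {M c : ℝ} (hD : Measurable D) (hM : ∀ s, 1 < s → |D s| ≤ M)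
    (hc : 0 < c) : IntegrableOn (fun s => rexp (-(c * s)) * D s) (Ioi 1) := by
  have h1 : IntegrableOn (fun s : ℝ => rexp (-(c * s)) * M) (Ioi 1) := (exp_int hc).mul_const M
  refine Integrable.mono' h1 ?_ ?_
  · exact ((by fun_prop : Measurable fun s : ℝ => rexp (-(c * s))).mul hD).aestronglyMeasurable
  · refine (ae_restrict_iff' measurableSet_Ioi).2 (Eventually.of_forall fun s hs => ?_)
    rw [norm_mul, Real.norm_eq_abs, Real.norm_eq_abs, abs_exp]
    exact mul_le_mul_of_nonneg_left (hM s hs) (exp_pos _).le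

theorem sq_neg {s : ℝ} (hs : 1 < s) : 1 - s ^ 2 ≤ 0 := by nlinarith

theorem SumA_eq (hRep : RepStmt) (hDbd : DbdStmt) (hHol : HolStmt) {L κ : ℝ} (hL : 0 < L)
    (hκ : 0 < κ) (l : List (ℝ × ℝ)) (hl : ∀ p ∈ l, OkA p) :
    SumA L l κ = 1 / π ^ 2 * ∫ s in Ioi (1 : ℝ), rexp (-(κ * L * s)) * DL l (1 - s ^ 2) := by
  induction l with
  | nil => simp [SumA, DL]
  | cons p l ih =>
    have hl' : ∀ q ∈ l, OkA q := fun q hq => hl q (by simp [hq])
    have ih' := ih hl'
    obtain ⟨i1, ⟨M, hM⟩, i3⟩ := DL_props hDbd hHol l hl'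
    have hp := hl p (by simp)
    obtain ⟨m1, m2⟩ := mem_bb hp
    obtain ⟨M', hM'⟩ := hDbd.2.2 _ _ m1 m2
    have hc : 0 < κ * L := mul_pos hκ hL
    have e1 : SumA L (p :: l) κ = Pool.Agent.AEU.germA (L / 2) p.1 p.2 κ + SumA L l κ := by
      unfold SumA; simp
    have e2 : Pool.Agent.AEU.germA (L / 2) p.1 p.2 κ
        = 1 / π ^ 2 * ∫ s in Ioi (1 : ℝ), rexp (-(κ * L * s)) * DR (bb p).1 (bb p).2 (1 - s ^ 2) := by
      unfold Pool.Agent.AEU.germA
      have h3 := hRep (bb p).1 (bb p).2 (κ * (L / 2)) m1 m2 (by positivity)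
      have h4 : Pool.Agent.AEU.H12.TA (π / (π - p.1)) (π / (π - p.2)) (κ * (L / 2))
          = ∫ s in Ioi (1 : ℝ), rexp (-(κ * L * s)) * DR (bb p).1 (bb p).2 (1 - s ^ 2) := by
        refine h3.trans ?_
        refine setIntegral_congr_fun measurableSet_Ioi fun s _ => ?_
        rw [show 2 * (κ * (L / 2)) * s = κ * L * s by ring]
      rw [h4]
    have hD1 : Measurable fun s : ℝ => DR (bb p).1 (bb p).2 (1 - s ^ 2) :=
      (hDbd.1 _ _).comp (by fun_prop)
    have hD2 : Measurable fun s : ℝ => DL l (1 - s ^ 2) := i1.comp (by fun_prop)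
    rw [e1, e2, ih', ← mul_add, ← integral_add
      (int_exp_D hD1 (fun s hs => hM' _ (sq_neg hs)) hc)
      (int_exp_D hD2 (fun s hs => hM _ (sq_neg hs)) hc)]
    congr 1
    refine setIntegral_congr_fun measurableSet_Ioi fun s _ => ?_
    simp only [DL_cons]
    ring

theorem TA_comm (b b' a : ℝ) : TA b b' a = TA b' b a := by
  unfold TA
  congr 1
  funext p
  ring

theorem germA_comm (l a b κ : ℝ) : Pool.Agent.AEU.germA l a b κ = Pool.Agent.AEU.germA l b a κ := by
  unfold Pool.Agent.AEU.germA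
  rw [TA_comm]

theorem diff_zero {L : ℝ} {AP AQ : List (ℝ × ℝ)} (h : ConA AP AQ) :
    (fun κ => SumA L AP κ - SumA L AQ κ) = 0 := by
  funext κ
  rcases h with ⟨rfl, rfl⟩ | ⟨p, q, rfl, rfl, h⟩
  · simp
  · rcases h with rfl | rfl
    · simp
    · simp only [SumA, List.map_cons, List.map_nil, List.sum_cons, List.sum_nil, add_zero,
        Prod.fst_swap, Prod.snd_swap, Pi.zero_apply]
      rw [germA_comm, sub_self]

theorem bb_inj {p q : ℝ × ℝ} (hp : OkA p) (hq : OkA q) (h : bb p = bb q) : p = q := by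
  have key : ∀ x y : ℝ, 0 < x → x < π / 2 → 0 < y → y < π / 2 → π / (π - x) = π / (π - y) →
      x = y := by
    intro x y _ hx _ hy h
    have hp := pi_pos
    have h1 : π - x ≠ 0 := by linarith
    have h2 : π - y ≠ 0 := by linarith
    rw [div_eq_div_iff h1 h2] at h
    have := mul_left_cancel₀ hp.ne' h
    linarith
  unfold bb at h
  rw [Prod.mk.injEq] at h
  exact Prod.ext (key _ _ hp.1 hp.2.1 hq.1 hq.2.1 h.1)
    (key _ _ hp.2.2.1 hp.2.2.2 hq.2.2.1 hq.2.2.2 h.2)

theorem bb_swap (p : ℝ × ℝ) : bb p.swap = (bb p).swap := rfl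

/-- **Module U_ALTA.** -/
theorem altA (hLead : LeadAStmt) (hRep : RepStmt) (hDbd : DbdStmt) (hHol : HolStmt)
    (hLca : LcaStmt) (hCore : CoreAStmt) : AltAStmt := by
  intro L AP AQ hL hlen hAP hAQ
  obtain ⟨i1, ⟨M, hM⟩, i3⟩ := DL_props hDbd hHol AP hAP
  obtain ⟨j1, ⟨N, hN⟩, j3⟩ := DL_props hDbd hHol AQ hAQ
  set E : ℝ → ℝ := fun z => DL AP z - DL AQ z with hE
  set D : ℝ → ℝ := fun s => E (1 - s ^ 2) with hD
  have hEan : AnalyticAt ℝ E 0 := i3.sub j3
  have hDan : AnalyticAt ℝ D 1 := by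
    have h1 : AnalyticAt ℝ (fun s : ℝ => 1 - s ^ 2) 1 := by fun_prop
    exact AnalyticAt.comp_of_eq (g := E) (f := fun s : ℝ => 1 - s ^ 2) hEan h1 (by norm_num)
  have hEm : Measurable E := i1.sub j1
  have hDm : Measurable D := hEm.comp (by fun_prop)
  have hDb : ∀ s, 1 < s → |D s| ≤ M + N := by
    intro s hs
    refine (abs_sub _ _).trans ?_
    exact add_le_add (hM _ (sq_neg hs)) (hN _ (sq_neg hs))
  -- the difference as a transform
  have hdiff : ∀ κ : ℝ, 0 < κ → SumA L AP κ - SumA L AQ κ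
      = 1 / π ^ 2 * ∫ s in Ioi (1 : ℝ), rexp (-(κ * L * s)) * D s := by
    intro κ hκ
    have hc : 0 < κ * L := mul_pos hκ hL
    rw [SumA_eq hRep hDbd hHol hL hκ AP hAP, SumA_eq hRep hDbd hHol hL hκ AQ hAQ, ← mul_sub,
      ← integral_sub]
    · congr 1
      refine setIntegral_congr_fun measurableSet_Ioi fun s _ => ?_
      simp only [hD, hE]
      ring
    · exact int_exp_D (i1.comp (by fun_prop)) (fun s hs => hM _ (sq_neg hs)) hc
    · exact int_exp_D (j1.comp (by fun_prop)) (fun s hs => hN _ (sq_neg hs)) hc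
  obtain ⟨C, hC, hlead⟩ := hLca
  set sP := (AP.map fun p => FA (bb p).1 * FA (bb p).2).sum with hsP
  set sQ := (AQ.map fun p => FA (bb p).1 * FA (bb p).2).sum with hsQ
  have h3 : Lead (fun κ => SumA L AP κ - SumA L AQ κ) L 3 (C / L ^ 3 * sP - C / L ^ 3 * sQ) := by
    have a1 := hlead L AP hL hAP
    have a2 := hlead L AQ hL hAQ
    unfold Lead at a1 a2 ⊢
    refine (a1.sub a2).congr fun κ => ?_
    ring
  rcases hLead L (M + N) D hL hDan hDm hDb with h0 | ⟨m, c, hc0, hmc⟩
  · left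
    -- `E = 0` near `0`
    have hE0 : ∀ᶠ z in 𝓝 (0 : ℝ), E z = 0 := by
      have hcont : Tendsto (fun z : ℝ => √(1 - z)) (𝓝 0) (𝓝 1) := by
        have : ContinuousAt (fun z : ℝ => √(1 - z)) 0 := by fun_prop
        have h4 := this.tendsto
        simpa using h4
      filter_upwards [hcont.eventually h0, gt_mem_nhds (show (0 : ℝ) < 1 by norm_num)] with z hz hz1
      simp only [hD] at hz
      rw [Real.sq_sqrt (by linarith)] at hz
      simpa using hz
    -- the leading coefficients agree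
    obtain ⟨ε, hε, hball⟩ := Metric.eventually_nhds_iff.1 h0
    have hz : Lead (fun κ => SumA L AP κ - SumA L AQ κ) L 3 0 := by
      have hb : ∀ κ : ℝ, 1 ≤ κ → |∫ s in Ioi (1 : ℝ), rexp (-(κ * L * s)) * D s|
          ≤ rexp (-((κ - 1) * (L * (1 + ε)))) * ((M + N) * ∫ s in Ioi (1 : ℝ), rexp (-(L * s))) := by
        intro κ hκ
        rw [← Real.norm_eq_abs]
        refine (norm_integral_le_integral_norm _).trans ?_
        rw [← integral_const_mul, ← integral_const_mul]
        refine setIntegral_mono_on ?_ ?_ measurableSet_Ioi ?_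
        · exact (int_exp_D hDm hDb (by positivity)).norm
        · exact (((exp_int hL).const_mul (M + N)).const_mul _)
        · intro s hs
          have hs1 : 1 < s := hs
          rw [norm_mul, Real.norm_eq_abs, Real.norm_eq_abs, abs_exp]
          by_cases hse : s < 1 + ε
          · have : D s = 0 := hball (by rw [Real.dist_eq, abs_of_pos (by linarith)]; linarith)
            rw [this, abs_zero, mul_zero]
            have : 0 ≤ M + N := (abs_nonneg _).trans (hDb s hs1)
            positivity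
          · rw [not_lt] at hse
            have e1 : rexp (-(κ * L * s)) ≤ rexp (-((κ - 1) * (L * (1 + ε)))) * rexp (-(L * s)) := by
              rw [← Real.exp_add]
              apply Real.exp_le_exp.2
              have : 0 ≤ (κ - 1) * L * (s - (1 + ε)) :=
                mul_nonneg (mul_nonneg (by linarith) hL.le) (by linarith)
              nlinarith
            calc rexp (-(κ * L * s)) * |D s|
                ≤ (rexp (-((κ - 1) * (L * (1 + ε)))) * rexp (-(L * s))) * (M + N) :=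
                  mul_le_mul e1 (hDb s hs1) (abs_nonneg _) (by positivity)
              _ = rexp (-((κ - 1) * (L * (1 + ε)))) * ((M + N) * rexp (-(L * s))) := by ring
      set K := (M + N) * ∫ s in Ioi (1 : ℝ), rexp (-(L * s)) with hK
      have hlim := (exp_neg_mul_rpow_tendsto (show 0 < L * ε by positivity) 3).const_mul
        (1 / π ^ 2 * (rexp (L * (1 + ε)) * K))
      rw [mul_zero] at hlim
      unfold Lead
      refine squeeze_zero_norm' ?_ hlim
      filter_upwards [eventually_ge_atTop (1 : ℝ)] with κ hκ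
      have hκ0 : 0 < κ := by linarith
      rw [hdiff κ hκ0, norm_mul, norm_mul, Real.norm_eq_abs, Real.norm_eq_abs, Real.norm_eq_abs,
        abs_of_pos (show 0 < 1 / π ^ 2 by positivity),
        abs_of_pos (show 0 < rexp (L * κ) * κ ^ (3 : ℝ) by positivity)]
      have h5 := hb κ hκ
      have e2 : rexp (-((κ - 1) * (L * (1 + ε)))) * rexp (L * κ)
          = rexp (L * (1 + ε)) * rexp (-(L * ε * κ)) := by
        rw [← Real.exp_add, ← Real.exp_add]
        congr 1
        ring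
      calc 1 / π ^ 2 * |∫ s in Ioi (1 : ℝ), rexp (-(κ * L * s)) * D s| * (rexp (L * κ) * κ ^ (3 : ℝ))
          ≤ 1 / π ^ 2 * (rexp (-((κ - 1) * (L * (1 + ε)))) * K) * (rexp (L * κ) * κ ^ (3 : ℝ)) := by
            gcongr
        _ = 1 / π ^ 2 * ((rexp (-((κ - 1) * (L * (1 + ε)))) * rexp (L * κ)) * K) * κ ^ (3 : ℝ) := by
            ring
        _ = 1 / π ^ 2 * (rexp (L * (1 + ε)) * K) * (rexp (-(L * ε * κ)) * κ ^ (3 : ℝ)) := by
            rw [e2]; ring
    have hs : sP = sQ := by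
      have h6 := tendsto_nhds_unique h3 hz
      have h7 : C / L ^ 3 * (sP - sQ) = 0 := by linarith
      have h8 : C / L ^ 3 ≠ 0 := by positivity
      rcases mul_eq_zero.1 h7 with h9 | h9
      · exact absurd h9 h8
      · linarith
    have hcon : ConA AP AQ := by
      have h10 := hCore (AP.map bb) (AQ.map bb) (by simpa using hlen)
        (by
          intro p hp
          obtain ⟨q, hq, rfl⟩ := List.mem_map.1 hp
          exact mem_bb (hAP q hq))
        (by
          intro p hp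
          obtain ⟨q, hq, rfl⟩ := List.mem_map.1 hp
          exact mem_bb (hAQ q hq))
        (by
          rw [List.map_map, List.map_map]
          exact hs)
        (by
          filter_upwards [hE0] with z hz
          rw [List.map_map, List.map_map]
          exact sub_eq_zero.1 hz)
      rcases h10 with ⟨a1, a2⟩ | ⟨p', q', a1, a2, a3⟩
      · exact Or.inl ⟨List.map_eq_nil_iff.1 a1, List.map_eq_nil_iff.1 a2⟩
      · obtain ⟨p, hp, rfl⟩ := List.map_eq_singleton_iff.1 a1
        obtain ⟨q, hq, rfl⟩ := List.map_eq_singleton_iff.1 a2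
        refine Or.inr ⟨p, q, hp, hq, ?_⟩
        have okp : OkA p := hAP p (by rw [hp]; simp)
        have okq : OkA q := hAQ q (by rw [hq]; simp)
        rcases a3 with a3 | a3
        · exact Or.inl (bb_inj okp okq a3)
        · right
          rw [← bb_swap] at a3
          exact bb_inj okp ⟨okq.2.2.1, okq.2.2.2, okq.1, okq.2.1⟩ a3
    exact ⟨hcon, diff_zero hcon⟩
  · right
    have hmc' : Lead (fun κ => SumA L AP κ - SumA L AQ κ) L (m + 1) (1 / π ^ 2 * c) := by
      unfold Lead at hmc ⊢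
      refine (hmc.const_mul (1 / π ^ 2)).congr' ?_
      filter_upwards [eventually_gt_atTop (0 : ℝ)] with κ hκ
      rw [hdiff κ hκ]
      ring
    have hc' : 1 / π ^ 2 * c ≠ 0 := mul_ne_zero (by positivity) hc0
    refine ⟨m + 1, 1 / π ^ 2 * c, ?_, hc', by push_cast; exact hmc'⟩
    by_contra hm3
    rw [not_le] at hm3
    have hm4 : (m : ℝ) + 1 < 3 := by exact_mod_cast hm3
    apply hc'
    have h5 : Tendsto (fun κ : ℝ => κ ^ (-(3 - ((m : ℝ) + 1)))) atTop (𝓝 0) :=
      tendsto_rpow_neg_atTop (by linarith)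
    have h6 := Tendsto.mul h3 h5
    rw [mul_zero] at h6
    refine tendsto_nhds_unique hmc' (h6.congr' ?_)
    filter_upwards [eventually_gt_atTop (0 : ℝ)] with κ hκ
    have e3 : κ ^ (3 : ℝ) * κ ^ (-(3 - ((m : ℝ) + 1))) = κ ^ ((m : ℝ) + 1) := by
      rw [← Real.rpow_add hκ]
      congr 1
      ring
    rw [← e3]
    ring

end Pool.Agent.XQ.U.H12
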