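import Pool.Agent.Helper12_XQ.Stmt

/-!
XQ module U, COREA: uniqueness for the densities of type A.
-/

set_option autoImplicit false

namespace Pool.Agent.XQ.U.H12

open MeasureTheory Filter Topology Real Set Pool.Agent.AEU Pool.Agent.AEU.H12 Pool.Agent.XQ

theorem exists_max (l : List (ℝ × ℝ)) (hl : l ≠ [])
    (h : ∀ p ∈ l, p.1 ∈ Ioo (1 : ℝ) 2 ∧ p.2 ∈ Ioo (1 : ℝ) 2) :
    ∃ b ∈ Ioo (1 : ℝ) 2, (∀ q ∈ l, q.1 ≤ b ∧ q.2 ≤ b) ∧ ∃ q ∈ l, q.1 = b ∨ q.2 = b := by
  induction l with
  | nil => exact absurd rfl hl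
  | cons a l ih =>
    have ha := h a (by simp)
    by_cases hl' : l = []
    · subst hl'
      refine ⟨max a.1 a.2, ?_, ?_, a, by simp, ?_⟩
      · rcases max_choice a.1 a.2 with h1 | h1 <;> rw [h1]
        · exact ha.1
        · exact ha.2
      · intro q hq
        rw [List.mem_singleton] at hq
        subst hq
        exact ⟨le_max_left _ _, le_max_right _ _⟩
      · rcases max_choice a.1 a.2 with h1 | h1 <;> rw [h1]
        · exact Or.inl rfl
        · exact Or.inr rfl
    · obtain ⟨b, hb, hb1, q, hq, hqb⟩ := ih hl' (fun p hp => h p (by simp [hp]))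
      refine ⟨max b (max a.1 a.2), ?_, ?_, ?_⟩
      · rcases max_choice b (max a.1 a.2) with h1 | h1 <;> rw [h1]
        · exact hb
        · rcases max_choice a.1 a.2 with h2 | h2 <;> rw [h2]
          · exact ha.1
          · exact ha.2
      · intro q' hq'
        rcases List.mem_cons.1 hq' with h1 | h1
        · subst h1
          exact ⟨le_max_of_le_right (le_max_left _ _), le_max_of_le_right (le_max_right _ _)⟩
        · exact ⟨le_max_of_le_left (hb1 _ h1).1, le_max_of_le_left (hb1 _ h1).2⟩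
      · rcases max_choice b (max a.1 a.2) with h1 | h1 <;> rw [h1]
        · exact ⟨q, by simp [hq], hqb⟩
        · refine ⟨a, by simp, ?_⟩
          rcases max_choice a.1 a.2 with h2 | h2 <;> rw [h2]
          · exact Or.inl rfl
          · exact Or.inr rfl

theorem tendsto_sum {α : Type} (l : List α) (f : α → ℝ → ℝ) (a : α → ℝ) (F : Filter ℝ)
    (h : ∀ q ∈ l, Tendsto (f q) F (𝓝 (a q))) :
    Tendsto (fun z => (l.map fun q => f q z).sum) F (𝓝 (l.map a).sum) := by
  induction l with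
  | nil => simp only [List.map_nil, List.sum_nil]; exact tendsto_const_nhds
  | cons b l ih =>
    simp only [List.map_cons, List.sum_cons]
    exact (h b (by simp)).add (ih fun q hq => h q (by simp [hq]))

theorem analytic_sum (l : List (ℝ × ℝ)) (s : Set ℝ)
    (h : ∀ q ∈ l, AnalyticOnNhd ℝ (DR q.1 q.2) s) :
    AnalyticOnNhd ℝ (fun z => (l.map fun q => DR q.1 q.2 z).sum) s := by
  induction l with
  | nil =>
    simp only [List.map_nil, List.sum_nil]
    exact analyticOnNhd_const
  | cons b l ih =>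
    simp only [List.map_cons, List.sum_cons]
    exact (h b (by simp)).add (ih fun q hq => h q (by simp [hq]))

theorem sum_div {α : Type} (l : List α) (f : α → ℝ) (c : ℝ) :
    (l.map fun q => f q / c).sum = (l.map f).sum / c := by
  induction l with
  | nil => simp
  | cons b l ih => simp only [List.map_cons, List.sum_cons, ih, add_div]

theorem le_sum {α : Type} (l : List α) (f : α → ℝ) (h : ∀ q ∈ l, 0 ≤ f q) {q : α} (hq : q ∈ l) :
    f q ≤ (l.map f).sum := by
  refine List.single_le_sum ?_ _ (List.mem_map_of_mem hq)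
  intro x hx
  obtain ⟨y, hy, rfl⟩ := List.mem_map.1 hx
  exact h y hy

theorem sum_pos' {α : Type} (l : List α) (f : α → ℝ) (h : ∀ q ∈ l, 0 < f q) (hl : l ≠ []) :
    0 < (l.map f).sum := by
  obtain ⟨q, hq⟩ := List.exists_mem_of_ne_nil l hl
  exact lt_of_lt_of_le (h q hq) (le_sum l f (fun x hx => (h x hx).le) hq)

theorem eq_singleton {α : Type} (l : List α) (f : α → ℝ) (h : ∀ q ∈ l, 0 < f q) {q : α}
    (hq : q ∈ l) (hs : (l.map f).sum = f q) : l = [q] := by
  obtain ⟨l1, l2, rfl⟩ := List.append_of_mem hq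
  simp only [List.map_append, List.map_cons, List.sum_append, List.sum_cons] at hs
  have h1 : l1 = [] := by
    by_contra hne
    have := sum_pos' l1 f (fun x hx => h x (by simp [hx])) hne
    have h2 : 0 ≤ (l2.map f).sum := by
      by_cases h2 : l2 = []
      · subst h2; simp
      · exact (sum_pos' l2 f (fun x hx => h x (by simp [hx])) h2).le
    linarith
  have h2 : l2 = [] := by
    by_contra hne
    have := sum_pos' l2 f (fun x hx => h x (by simp [hx])) hne
    subst h1
    simp at hs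
    linarith
  rw [h1, h2]
  rfl

theorem corea (hHol : HolStmt) (hSing : SingStmt) (hMono : MonoStmt) (hDbd : DbdStmt) :
    CoreAStmt := by
  intro AP AQ hlen hAP hAQ hFA hE
  obtain ⟨hFpos, hFlt, hDel⟩ := hMono
  have hsym := hDbd.2.1
  set w : ℝ × ℝ → ℝ := fun p => FA p.1 * FA p.2 with hw
  have hwP : ∀ q ∈ AP, 0 < w q := fun q hq => mul_pos (hFpos _ (hAP q hq).1) (hFpos _ (hAP q hq).2)
  have hwQ : ∀ q ∈ AQ, 0 < w q := fun q hq => mul_pos (hFpos _ (hAQ q hq).1) (hFpos _ (hAQ q hq).2)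
  by_cases hQ : AQ = []
  · left
    refine ⟨?_, hQ⟩
    by_contra hP
    have := sum_pos' AP w hwP hP
    rw [hFA, hQ] at this
    simp at this
  have hP : AP ≠ [] := by
    intro hP
    have := sum_pos' AQ w hwQ hQ
    rw [← hFA, hP] at this
    simp at this
  right
  obtain ⟨p, rfl⟩ : ∃ p, AP = [p] := by
    match AP, hP, hlen with
    | [p], _, _ => exact ⟨p, rfl⟩
    | _ :: _ :: _, _, h => simp at h
  have hp := hAP p (by simp)
  simp only [List.map_cons, List.map_nil, List.sum_cons, List.sum_nil, add_zero] at hFA hE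
  obtain ⟨b, hb, hbmax, q₀, hq₀, hq₀b⟩ := exists_max ([p] ++ AQ) (by simp) (by
    intro q hq
    rcases List.mem_append.1 hq with h | h
    · exact hAP q h
    · exact hAQ q h)
  obtain ⟨hz0, hzlt, hNN, hD1, hD0, hD2, hDnn⟩ := hSing b hb
  have hzle : ∀ x, x ∈ Ioo (1 : ℝ) 2 → x ≤ b → zb b ≤ zb x := by
    intro x hx hxb
    rcases hxb.lt_or_eq with h | h
    · exact (hzlt x ⟨hx.1, h⟩).le
    · rw [h]
  -- equality up to the singularity
  have hana : ∀ l : List (ℝ × ℝ), (∀ q ∈ l, q.1 ∈ Ioo (1 : ℝ) 2 ∧ q.2 ∈ Ioo (1 : ℝ) 2) →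
      (∀ q ∈ l, q.1 ≤ b ∧ q.2 ≤ b) →
      AnalyticOnNhd ℝ (fun z => (l.map fun q => DR q.1 q.2 z).sum) (Ioo (-(zb b)) (zb b)) := by
    intro l hl hlb
    refine analytic_sum l _ fun q hq => ?_
    exact hHol q.1 q.2 (zb b) (hl q hq).1 (hl q hq).2 (hzle _ (hl q hq).1 (hlb q hq).1)
      (hzle _ (hl q hq).2 (hlb q hq).2)
  have hEq : ∀ z ∈ Ioo (-(zb b)) (zb b), DR p.1 p.2 z = (AQ.map fun q => DR q.1 q.2 z).sum := by
    have h1 := hana [p] (fun q hq => hAP q hq) (fun q hq => hbmax q (by simp at hq; simp [hq]))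
    have h2 := hana AQ hAQ (fun q hq => hbmax q (by simp [hq]))
    have h3 := h1.eqOn_of_preconnected_of_eventuallyEq h2 isPreconnected_Ioo
      (show (0 : ℝ) ∈ Ioo (-(zb b)) (zb b) from ⟨by linarith, hz0⟩) (by
        filter_upwards [hE] with z hz
        simpa using hz)
    intro z hz
    have := h3 hz
    simpa using this
  have hev : ∀ᶠ z in 𝓝[<] zb b, DR p.1 p.2 z = (AQ.map fun q => DR q.1 q.2 z).sum ∧ 0 ≤ z ∧
      z < zb b ∧ 0 < NN b z := by
    have h1 : ∀ᶠ z in 𝓝[<] zb b, z ∈ Ioo 0 (zb b) := Ioo_mem_nhdsLT hz0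
    filter_upwards [h1, hNN.eventually_gt_atTop 0] with z hz hz2
    exact ⟨hEq z ⟨by linarith [hz.1, hz0], hz.2⟩, hz.1.le, hz.2, hz2⟩
  have hmem : ∀ q, q ∈ [p] ++ AQ → q.1 ∈ Ioc 1 b ∧ q.2 ∈ Ioc 1 b := by
    intro q hq
    have h1 := hbmax q hq
    have h2 : q.1 ∈ Ioo (1 : ℝ) 2 ∧ q.2 ∈ Ioo (1 : ℝ) 2 := by
      rcases List.mem_append.1 hq with h | h
      · exact hAP q h
      · exact hAQ q h
    exact ⟨⟨h2.1.1, h1.1⟩, ⟨h2.2.1, h1.2⟩⟩
  -- the order-normalised pair
  have hnorm : ∀ q, q ∈ [p] ++ AQ → DR q.1 q.2 = DR (max q.1 q.2) (min q.1 q.2) ∧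
      w q = FA (max q.1 q.2) * FA (min q.1 q.2) := by
    intro q _
    rcases le_total q.1 q.2 with h | h
    · rw [max_eq_right h, min_eq_left h]
      exact ⟨funext fun z => hsym _ _ _, mul_comm _ _⟩
    · rw [max_eq_left h, min_eq_right h]
      exact ⟨rfl, rfl⟩
  have hnonneg : ∀ q, q ∈ [p] ++ AQ → ∀ z, 0 ≤ z → z < zb b → 0 ≤ DR q.1 q.2 z :=
    fun q hq z h1 h2 => hDnn _ _ _ (hmem q hq).1 (hmem q hq).2 h1 h2
  -- limits
  have hlim0 : ∀ q, q ∈ [p] ++ AQ → max q.1 q.2 < b →
      Tendsto (fun z => DR q.1 q.2 z / NN b z) (𝓝[<] zb b) (𝓝 0) := by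
    intro q hq h
    have h1 := hmem q hq
    exact hD0 _ _ ⟨h1.1.1, (le_max_left _ _).trans_lt h⟩ ⟨h1.2.1, (le_max_right _ _).trans_lt h⟩
  have hlim1 : ∀ q, q ∈ [p] ++ AQ → max q.1 q.2 = b → min q.1 q.2 < b →
      Tendsto (fun z => DR q.1 q.2 z / NN b z) (𝓝[<] zb b) (𝓝 (2 * Del b (min q.1 q.2))) := by
    intro q hq h1 h2
    rw [(hnorm q hq).1, h1]
    exact hD1 _ ⟨lt_min (hmem q hq).1.1 (hmem q hq).2.1, h2⟩
  have hlim2 : ∀ q, q ∈ [p] ++ AQ → max q.1 q.2 = b → ¬ min q.1 q.2 < b →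
      DR q.1 q.2 = DR b b ∧ q = (b, b) := by
    intro q hq h1 h2
    have h3 : min q.1 q.2 = b := le_antisymm (min_le_max.trans h1.le) (not_lt.1 h2)
    have h4 : q.1 = b := le_antisymm ((le_max_left _ _).trans h1.le) (h3 ▸ min_le_left _ _)
    have h5 : q.2 = b := le_antisymm ((le_max_right _ _).trans h1.le) (h3 ▸ min_le_right _ _)
    rw [h4, h5]
    exact ⟨rfl, Prod.ext h4 h5⟩
  have hDelpos : ∀ q, q ∈ [p] ++ AQ → min q.1 q.2 < b → 0 < Del b (min q.1 q.2) := by
    intro q hq h2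
    have h3 : 1 < min q.1 q.2 := lt_min (hmem q hq).1.1 (hmem q hq).2.1
    obtain ⟨y, hy1, hy2⟩ := exists_between h2
    exact (hDel b _ y hb ⟨h3, h2⟩ ⟨h3.trans hy1, hy2⟩ hy1).1
  have hpm : p ∈ [p] ++ AQ := by simp
  have hQm : ∀ q ∈ AQ, q ∈ [p] ++ AQ := fun q hq => by simp [hq]
  have hle : ∀ q ∈ AQ, ∀ᶠ z in 𝓝[<] zb b, DR q.1 q.2 z / NN b z ≤ DR p.1 p.2 z / NN b z := by
    intro q hq
    filter_upwards [hev] with z hz
    rw [hz.1]
    exact div_le_div_of_nonneg_right (le_sum AQ (fun q => DR q.1 q.2 z)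
      (fun x hx => hnonneg x (hQm x hx) z hz.2.1 hz.2.2.1) hq) hz.2.2.2.le
  have hpmax : max p.1 p.2 = b := by
    by_contra hne
    have hlt : max p.1 p.2 < b := lt_of_le_of_ne (max_le (hmem p hpm).1.2 (hmem p hpm).2.2) hne
    have hq₀Q : q₀ ∈ AQ := by
      rcases List.mem_append.1 hq₀ with h | h
      · rw [List.mem_singleton] at h
        subst h
        exfalso
        rcases hq₀b with h1 | h1
        · exact absurd ((le_max_left q₀.1 q₀.2).trans_lt hlt) (by rw [h1]; exact lt_irrefl _)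
        · exact absurd ((le_max_right q₀.1 q₀.2).trans_lt hlt) (by rw [h1]; exact lt_irrefl _)
      · exact h
    have hq₀max : max q₀.1 q₀.2 = b := by
      refine le_antisymm (max_le (hmem q₀ hq₀).1.2 (hmem q₀ hq₀).2.2) ?_
      rcases hq₀b with h1 | h1
      · rw [← h1]; exact le_max_left _ _
      · rw [← h1]; exact le_max_right _ _
    have hl0 := hlim0 p hpm hlt
    by_cases hmn : min q₀.1 q₀.2 < b
    · have h1 := le_of_tendsto_of_tendsto (hlim1 q₀ hq₀ hq₀max hmn) hl0 (hle q₀ hq₀Q)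
      have h2 := hDelpos q₀ hq₀ hmn
      linarith only [h1, h2]
    · have h1 := (hlim2 q₀ hq₀ hq₀max hmn).1
      have h2 : Tendsto (fun z => DR q₀.1 q₀.2 z / NN b z) (𝓝[<] zb b) atTop := by
        rw [h1]; exact hD2
      have h3 := tendsto_atTop_mono' _ (hle q₀ hq₀Q) h2
      exact not_tendsto_nhds_of_tendsto_atTop h3 _ hl0
  by_cases hpmin : min p.1 p.2 < b
  · -- case (ii)
    set b' := min p.1 p.2 with hb'
    have hb'1 : 1 < b' := lt_min (hmem p hpm).1.1 (hmem p hpm).2.1
    have hlp := hlim1 p hpm hpmax hpmin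
    have hno2 : ∀ q ∈ AQ, max q.1 q.2 = b → min q.1 q.2 < b := by
      intro q hq h1
      by_contra h2
      have h3 := (hlim2 q (hQm q hq) h1 h2).1
      have h4 : Tendsto (fun z => DR q.1 q.2 z / NN b z) (𝓝[<] zb b) atTop := by
        rw [h3]; exact hD2
      exact not_tendsto_nhds_of_tendsto_atTop (tendsto_atTop_mono' _ (hle q hq) h4) _ hlp
    classical
    set G : ℝ × ℝ → ℝ := fun q => if max q.1 q.2 = b then 2 * Del b (min q.1 q.2) else 0 with hG
    have hsum : (AQ.map G).sum = 2 * Del b b' := by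
      have h1 : Tendsto (fun z => (AQ.map fun q => DR q.1 q.2 z / NN b z).sum) (𝓝[<] zb b)
          (𝓝 (AQ.map G).sum) := by
        refine tendsto_sum AQ (fun q z => DR q.1 q.2 z / NN b z) G _ fun q hq => ?_
        simp only [hG]
        split_ifs with h
        · exact hlim1 q (hQm q hq) h (hno2 q hq h)
        · exact hlim0 q (hQm q hq)
            (lt_of_le_of_ne (max_le (hmem q (hQm q hq)).1.2 (hmem q (hQm q hq)).2.2) h)
      refine tendsto_nhds_unique (h1.congr' ?_) hlp
      filter_upwards [hev] with z hz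
      rw [hz.1]
      exact sum_div AQ (fun q => DR q.1 q.2 z) _
    have hFb : 0 < FA b := hFpos b hb
    have hFb' : 0 < FA b' := hFpos b' ⟨hb'1, hpmin.trans hb.2⟩
    have hDb' : 0 < Del b b' := hDelpos p hpm hpmin
    have hwp : w p = FA b * FA b' := by rw [(hnorm p hpm).2, hpmax]
    have hkey : ∀ q ∈ AQ, G q ≤ 2 * (Del b b' / FA b' / FA b) * w q ∧
        (G q = 2 * (Del b b' / FA b' / FA b) * w q → max q.1 q.2 = b ∧ min q.1 q.2 = b') := by
      intro q hq
      have hwq : 0 < w q := hwQ q hq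
      have hρ : 0 < 2 * (Del b b' / FA b' / FA b) := by positivity
      by_cases h : max q.1 q.2 = b
      · have hGq : G q = 2 * Del b (min q.1 q.2) := by simp only [hG]; rw [if_pos h]
        have hmn := hno2 q hq h
        have hmn1 : 1 < min q.1 q.2 :=
          lt_min (hmem q (hQm q hq)).1.1 (hmem q (hQm q hq)).2.1
        have hFm : 0 < FA (min q.1 q.2) := hFpos _ ⟨hmn1, hmn.trans hb.2⟩
        have hwq' : w q = FA b * FA (min q.1 q.2) := by rw [(hnorm q (hQm q hq)).2, h]
        have hwle : w q ≤ w p := by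
          rw [hFA]
          exact le_sum AQ w (fun x hx => (hwQ x hx).le) hq
        have hFle : FA (min q.1 q.2) ≤ FA b' := by
          rw [hwq', hwp] at hwle
          exact le_of_mul_le_mul_left hwle hFb
        have hmle : min q.1 q.2 ≤ b' := by
          by_contra hlt
          have := hFlt b' (min q.1 q.2) ⟨hb'1, hpmin.trans hb.2⟩ ⟨hmn1, hmn.trans hb.2⟩
            (not_le.1 hlt)
          linarith only [hFle, this]
        have hval : 2 * (Del b b' / FA b' / FA b) * w q =
            2 * (Del b b' / FA b' * FA (min q.1 q.2)) := by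
          rw [hwq']; field_simp
        rcases hmle.lt_or_eq with h3 | h3
        · have h4 := (hDel b _ _ hb ⟨hmn1, hmn⟩ ⟨hb'1, hpmin⟩ h3).2
          have h5 : G q < 2 * (Del b b' / FA b' / FA b) * w q := by
            rw [hGq, hval]
            have : Del b (min q.1 q.2) < Del b b' / FA b' * FA (min q.1 q.2) :=
              (div_lt_iff₀ hFm).1 h4
            linarith
          exact ⟨h5.le, fun h6 => absurd h6 h5.ne⟩
        · refine ⟨?_, fun _ => ⟨h, h3⟩⟩
          rw [hGq, hval, h3]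
          have : Del b b' / FA b' * FA b' = Del b b' := by field_simp
          rw [this]
      · have hGq : G q = 0 := by simp only [hG]; rw [if_neg h]
        have h5 : G q < 2 * (Del b b' / FA b' / FA b) * w q := by
          rw [hGq]; positivity
        exact ⟨h5.le, fun h6 => absurd h6 h5.ne⟩
    have htot : (AQ.map fun q => 2 * (Del b b' / FA b' / FA b) * w q).sum = 2 * Del b b' := by
      rw [List.sum_map_mul_left]
      have h1 : (AQ.map w).sum = FA b * FA b' := by rw [← hFA]; exact hwp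
      rw [h1]
      field_simp
    obtain ⟨q, hq⟩ := List.exists_mem_of_ne_nil AQ hQ
    have heq : G q = 2 * (Del b b' / FA b' / FA b) * w q := by
      by_contra hne
      have := List.sum_lt_sum (l := AQ) G (fun q => 2 * (Del b b' / FA b' / FA b) * w q)
        (fun q hq => (hkey q hq).1) ⟨q, hq, lt_of_le_of_ne (hkey q hq).1 hne⟩
      rw [hsum, htot] at this
      exact lt_irrefl _ this
    obtain ⟨hqmax, hqmin⟩ := (hkey q hq).2 heq
    have hwq : w q = w p := by
      rw [(hnorm q (hQm q hq)).2, hqmax, hqmin, hwp]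
    have hAQ1 : AQ = [q] := eq_singleton AQ w hwQ hq (by rw [hwq]; exact hFA.symm)
    refine ⟨p, q, rfl, hAQ1, ?_⟩
    rcases le_total p.1 p.2 with h1 | h1 <;> rcases le_total q.1 q.2 with h2 | h2
    · left
      rw [max_eq_right h1] at hpmax
      rw [max_eq_right h2] at hqmax
      rw [min_eq_left h2] at hqmin
      rw [min_eq_left h1] at hb'
      exact Prod.ext (by rw [hqmin, hb']) (by rw [hpmax, hqmax])
    · right
      rw [max_eq_right h1] at hpmax
      rw [max_eq_left h2] at hqmax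
      rw [min_eq_right h2] at hqmin
      rw [min_eq_left h1] at hb'
      exact Prod.ext (by rw [Prod.fst_swap, hqmin, hb']) (by rw [Prod.snd_swap, hpmax, hqmax])
    · right
      rw [max_eq_left h1] at hpmax
      rw [max_eq_right h2] at hqmax
      rw [min_eq_left h2] at hqmin
      rw [min_eq_right h1] at hb'
      exact Prod.ext (by rw [Prod.fst_swap, hpmax, hqmax]) (by rw [Prod.snd_swap, hqmin, hb'])
    · left
      rw [max_eq_left h1] at hpmax
      rw [max_eq_left h2] at hqmax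
      rw [min_eq_right h2] at hqmin
      rw [min_eq_right h1] at hb'
      exact Prod.ext (by rw [hpmax, hqmax]) (by rw [hqmin, hb'])
  · -- case (i)
    obtain ⟨hDp, hpb⟩ := hlim2 p hpm hpmax hpmin
    have hex : ∃ q ∈ AQ, max q.1 q.2 = b ∧ ¬ min q.1 q.2 < b := by
      by_contra hcon
      push Not at hcon
      classical
      have h1 : Tendsto (fun z => (AQ.map fun q => DR q.1 q.2 z / NN b z).sum) (𝓝[<] zb b)
          (𝓝 (AQ.map fun q => if max q.1 q.2 = b then 2 * Del b (min q.1 q.2) else 0).sum) := by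
        refine tendsto_sum AQ (fun q z => DR q.1 q.2 z / NN b z) _ _ fun q hq => ?_
        split_ifs with h
        · exact hlim1 q (hQm q hq) h (hcon q hq h)
        · exact hlim0 q (hQm q hq)
            (lt_of_le_of_ne (max_le (hmem q (hQm q hq)).1.2 (hmem q (hQm q hq)).2.2) h)
      have h2 : Tendsto (fun z => DR p.1 p.2 z / NN b z) (𝓝[<] zb b) atTop := by
        rw [hDp]; exact hD2
      refine not_tendsto_nhds_of_tendsto_atTop h2 _ (h1.congr' ?_)
      filter_upwards [hev] with z hz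
      rw [hz.1]
      exact sum_div AQ (fun q => DR q.1 q.2 z) _
    obtain ⟨q, hq, h1, h2⟩ := hex
    have hqb := (hlim2 q (hQm q hq) h1 h2).2
    have hpq : p = q := by rw [hpb, hqb]
    refine ⟨p, q, rfl, ?_, Or.inl hpq⟩
    refine eq_singleton AQ w hwQ hq ?_
    rw [← hpq]
    exact hFA.symm

end Pool.Agent.XQ.U.H12
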