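import Pool.Agent.Helper16_XQ.StmtG

/-!
Squad XQ (MP_5b0138_an), module G_EVR: the environment.
-/

set_option autoImplicit false

namespace Pool.Agent.XQ

open MeasureTheory Complex Filter Topology Pool.Agent.H62T
open Pool.Agent.H16F (Sublin)
open Pool.Agent.AEU

/-- **Module G_EVR.** -/
theorem evr (hUNX : UnxStatement) : EvrStatement := by
  intro P Q L hP hG hQ hH
  refine ⟨hP, hQ, hH.m1, hH.m2, hH.uq, ?_⟩
  intro g g' S h w w' _
  have hS : ∀ s ∈ S, s ∈ Q := fun s hs => Finset.mem_of_mem_filter s (w.tch hs)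
  exact ((hUNX.2 Q P hQ.unit hP hG g g').2 S (fun s hs => hS s hs)
    (le_of_eq w.card.symm) w.mem w'.mem)

end Pool.Agent.XQ
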