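import Pool.Agent.Helper12_XQ.Stmt

/-!
Squad XQ (MP_5b0138_an), module U_FOUR: the kernel as an integral of plane waves.
-/

set_option autoImplicit false

namespace Pool.Agent.XQ.U.H12

open MeasureTheory Filter Topology Set

/-- shifted partial sums of the cotangent series -/
theorem cot_partial {w : ℂ} (hw : w ∈ Complex.integerComplement) :
    Tendsto (fun N : ℕ => ∑ k ∈ Finset.range N, (1 / (w - (k + 1)) + 1 / (w + k))) atTop
      (𝓝 (Real.pi * Complex.cot (Real.pi * w))) := by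
  have hne : ∀ n : ℕ, w + n ≠ 0 := fun n => by
    simpa using Complex.integerComplement_add_ne_zero hw (n : ℤ)
  have e1 : ∀ N : ℕ, ∑ k ∈ Finset.range N, (1 / (w - (k + 1)) + 1 / (w + k))
      = ∑ k ∈ Finset.range N, cotTerm w k + 1 / w - 1 / (w + N) := by
    intro N
    induction N with
    | zero => simp
    | succ N ih =>
      rw [Finset.sum_range_succ, ih, Finset.sum_range_succ]
      simp only [cotTerm]
      push_cast
      have h1 := hne N
      have h2 := hne (N + 1)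
      push_cast at h2
      rw [← add_assoc]
      ring
  have h1 := tendsto_logDeriv_euler_cot_sub hw
  have h2 : Tendsto (fun N : ℕ => 1 / (w + N)) atTop (𝓝 0) := by
    have h3 : Tendsto (fun N : ℕ => ‖w + (N : ℂ)‖) atTop atTop := by
      have h4 : Tendsto (fun N : ℕ => (N : ℝ) - ‖w‖) atTop atTop :=
        tendsto_atTop_add_const_right _ _ tendsto_natCast_atTop_atTop
      refine tendsto_atTop_mono (fun N => ?_) h4
      have h5 := norm_sub_norm_le (N : ℂ) (-w)
      rw [norm_neg, sub_neg_eq_add, add_comm (N : ℂ) w, Complex.norm_natCast] at h5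
      exact h5
    rw [tendsto_zero_iff_norm_tendsto_zero]
    simp only [norm_div, norm_one]
    exact h3.const_div_atTop 1
  have h3 := (h1.add_const (1 / w)).sub h2
  have h4 : (Real.pi : ℂ) * Complex.cot (Real.pi * w)
      = Real.pi * Complex.cot (Real.pi * w) - 1 / w + 1 / w - 0 := by ring
  rw [h4]
  exact h3.congr fun N => (e1 N).symm

/-- the kernel -/
noncomputable def Wk (a c τ : ℝ) : ℝ := Real.sinh (c * τ) / Real.sinh (a * τ)

section
variable {a c : ℝ}

theorem Wk_bound (ha : 0 < a) (hc : 0 < c) (hca : c < a) {τ : ℝ} (hτ : 0 < τ) :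
    ‖(Wk a c τ : ℂ)‖ ≤ Real.exp (-((a - c) * τ)) := by
  rw [Complex.norm_real]
  unfold Wk
  have h1 : 0 < Real.sinh (c * τ) := Real.sinh_pos_iff.2 (by positivity)
  have h2 : 0 < Real.sinh (a * τ) := Real.sinh_pos_iff.2 (by positivity)
  rw [Real.norm_of_nonneg (by positivity), div_le_iff₀ h2, Real.sinh_eq, Real.sinh_eq]
  have e1 : Real.exp (-((a - c) * τ)) * Real.exp (a * τ) = Real.exp (c * τ) := by
    rw [← Real.exp_add]; congr 1; ring
  have e2 : Real.exp (-((a - c) * τ)) * Real.exp (-(a * τ)) ≤ Real.exp (-(c * τ)) := by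
    rw [← Real.exp_add]
    apply Real.exp_le_exp.2
    nlinarith [mul_pos (sub_pos.2 hca) hτ]
  have e3 : Real.exp (-((a - c) * τ)) * ((Real.exp (a * τ) - Real.exp (-(a * τ))) / 2)
      = (Real.exp (-((a - c) * τ)) * Real.exp (a * τ)
        - Real.exp (-((a - c) * τ)) * Real.exp (-(a * τ))) / 2 := by ring
  rw [e3, e1]
  linarith

theorem norm_cosh_le (μ : ℂ) {τ : ℝ} (hτ : 0 ≤ τ) :
    ‖Complex.cosh (μ * τ)‖ ≤ Real.exp (|μ.re| * τ) := by
  rw [Complex.cosh, norm_div, Complex.norm_ofNat]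
  have h1 : ‖Complex.exp (μ * τ)‖ ≤ Real.exp (|μ.re| * τ) := by
    rw [Complex.norm_exp]
    apply Real.exp_le_exp.2
    simp only [Complex.mul_re, Complex.ofReal_re, Complex.ofReal_im, mul_zero, sub_zero]
    exact mul_le_mul_of_nonneg_right (le_abs_self _) hτ
  have h2 : ‖Complex.exp (-(μ * τ))‖ ≤ Real.exp (|μ.re| * τ) := by
    rw [Complex.norm_exp]
    apply Real.exp_le_exp.2
    simp only [Complex.neg_re, Complex.mul_re, Complex.ofReal_re, Complex.ofReal_im, mul_zero,
      sub_zero]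
    rw [← neg_mul]
    exact mul_le_mul_of_nonneg_right (neg_le_abs _) hτ
  have h3 := norm_add_le (Complex.exp (μ * τ)) (Complex.exp (-(μ * τ)))
  rw [div_le_iff₀ (by norm_num)]
  linarith

/-- the integrand -/
noncomputable def FF (a c : ℝ) (μ : ℂ) (τ : ℝ) : ℂ := Complex.cosh (μ * τ) * (Wk a c τ : ℂ)

theorem FF_bound (ha : 0 < a) (hc : 0 < c) (hca : c < a) (μ : ℂ) {τ : ℝ} (hτ : 0 < τ) :
    ‖FF a c μ τ‖ ≤ Real.exp (-((a - c - |μ.re|) * τ)) := by
  unfold FF
  rw [norm_mul]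
  refine (mul_le_mul (norm_cosh_le μ hτ.le) (Wk_bound ha hc hca hτ) (norm_nonneg _)
    (Real.exp_pos _).le).trans_eq ?_
  rw [← Real.exp_add]
  congr 1
  ring

theorem FF_meas (a c : ℝ) (μ : ℂ) : Measurable (FF a c μ) := by
  unfold FF Wk
  have h1 : Measurable fun τ : ℝ => Real.sinh (c * τ) / Real.sinh (a * τ) := by fun_prop
  have h2 : Measurable fun τ : ℝ => Complex.cosh (μ * τ) := by
    have : Continuous fun τ : ℝ => Complex.cosh (μ * τ) := by fun_prop
    exact this.measurable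
  exact h2.mul (Complex.measurable_ofReal.comp h1)

theorem exp_intOn {r : ℝ} (hr : 0 < r) : IntegrableOn (fun τ : ℝ => Real.exp (-(r * τ))) (Ioi 0) := by
  have := exp_neg_integrableOn_Ioi 0 hr
  refine this.congr_fun (fun s _ => ?_) measurableSet_Ioi
  simp [neg_mul]

theorem FF_int (ha : 0 < a) (hc : 0 < c) {μ : ℂ} (hμ : c + |μ.re| < a) :
    IntegrableOn (FF a c μ) (Ioi 0) := by
  have h0 : 0 < a - c - |μ.re| := by linarith
  have hca : c < a := by linarith [abs_nonneg μ.re]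
  refine Integrable.mono' (exp_intOn h0) (FF_meas a c μ).aestronglyMeasurable ?_
  exact (ae_restrict_iff' measurableSet_Ioi).2 (Eventually.of_forall fun s hs =>
    FF_bound ha hc hca μ hs)

/-- the terms of the series -/
noncomputable def Tk (a c : ℝ) (μ : ℂ) (k : ℕ) : ℂ :=
  1 / 2 * (1 / ((2 * k + 1) * a - (c + μ)) - 1 / ((2 * k + 1) * a + (c + μ))
    + 1 / ((2 * k + 1) * a - (c - μ)) - 1 / ((2 * k + 1) * a + (c - μ)))

theorem int_exp {z : ℂ} (hz : z.re < 0) :
    IntegrableOn (fun τ : ℝ => Complex.exp (z * τ)) (Ioi 0) ∧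
      ∫ τ : ℝ in Ioi (0 : ℝ), Complex.exp (z * τ) = -1 / z := by
  refine ⟨integrableOn_exp_mul_complex_Ioi hz 0, ?_⟩
  rw [integral_exp_mul_complex_Ioi hz 0]
  simp

theorem int4 {f1 f2 f3 f4 : ℝ → ℂ} {S : Set ℝ} (h1 : IntegrableOn f1 S) (h2 : IntegrableOn f2 S)
    (h3 : IntegrableOn f3 S) (h4 : IntegrableOn f4 S) :
    ∫ τ in S, (f1 τ - f2 τ + f3 τ - f4 τ)
      = (∫ τ in S, f1 τ) - (∫ τ in S, f2 τ) + (∫ τ in S, f3 τ) - ∫ τ in S, f4 τ := by
  have e1 := integral_sub h1 h2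
  have e2 := integral_add (h1.sub h2) h3
  have e3 := integral_sub ((h1.sub h2).add h3) h4
  simp only [Pi.sub_apply, Pi.add_apply] at e1 e2 e3 ⊢
  rw [e3, e2, e1]

theorem term_int (ha : 0 < a) (hc : 0 < c) {μ : ℂ} (hμ : c + |μ.re| < a) (k : ℕ) :
    IntegrableOn (fun τ : ℝ => 2 * Complex.cosh (μ * τ) * Complex.sinh (c * τ)
      * Complex.exp (-((2 * k + 1) * a) * τ)) (Ioi 0) ∧
    ∫ τ : ℝ in Ioi (0 : ℝ), 2 * Complex.cosh (μ * τ) * Complex.sinh (c * τ)
      * Complex.exp (-((2 * k + 1) * a) * τ) = Tk a c μ k := by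
  have hk : (0 : ℝ) ≤ k := Nat.cast_nonneg k
  have hka : a ≤ (2 * k + 1) * a := by nlinarith
  have a1 := le_abs_self μ.re
  have a2 := neg_le_abs μ.re
  obtain ⟨p1, q1⟩ := int_exp (z := (c + μ) - (2 * k + 1) * a) (by
    simp; linarith)
  obtain ⟨p2, q2⟩ := int_exp (z := -(c + μ) - (2 * k + 1) * a) (by
    simp; linarith)
  obtain ⟨p3, q3⟩ := int_exp (z := (c - μ) - (2 * k + 1) * a) (by
    simp; linarith)
  obtain ⟨p4, q4⟩ := int_exp (z := -(c - μ) - (2 * k + 1) * a) (by
    simp; linarith)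
  have e : (fun τ : ℝ => 2 * Complex.cosh (μ * τ) * Complex.sinh (c * τ)
      * Complex.exp (-((2 * k + 1) * a) * τ)) = fun τ : ℝ => 1 / 2 *
        (Complex.exp (((c + μ) - (2 * k + 1) * a) * τ) - Complex.exp ((-(c + μ) - (2 * k + 1) * a) * τ)
        + Complex.exp (((c - μ) - (2 * k + 1) * a) * τ)
        - Complex.exp ((-(c - μ) - (2 * k + 1) * a) * τ)) := by
    funext τ
    rw [Complex.cosh, Complex.sinh]
    have x1 : Complex.exp (((c + μ) - (2 * k + 1) * a) * τ)
        = Complex.exp (μ * τ) * Complex.exp (c * τ) * Complex.exp (-((2 * k + 1) * a) * τ) := by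
      rw [← Complex.exp_add, ← Complex.exp_add]; congr 1; ring
    have x2 : Complex.exp ((-(c + μ) - (2 * k + 1) * a) * τ)
        = Complex.exp (-(μ * τ)) * Complex.exp (-(c * τ)) * Complex.exp (-((2 * k + 1) * a) * τ) := by
      rw [← Complex.exp_add, ← Complex.exp_add]; congr 1; ring
    have x3 : Complex.exp (((c - μ) - (2 * k + 1) * a) * τ)
        = Complex.exp (-(μ * τ)) * Complex.exp (c * τ) * Complex.exp (-((2 * k + 1) * a) * τ) := by
      rw [← Complex.exp_add, ← Complex.exp_add]; congr 1; ring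
    have x4 : Complex.exp ((-(c - μ) - (2 * k + 1) * a) * τ)
        = Complex.exp (μ * τ) * Complex.exp (-(c * τ)) * Complex.exp (-((2 * k + 1) * a) * τ) := by
      rw [← Complex.exp_add, ← Complex.exp_add]; congr 1; ring
    rw [x1, x2, x3, x4]
    ring
  rw [e]
  refine ⟨(((p1.sub p2).add p3).sub p4).const_mul _, ?_⟩
  rw [integral_const_mul, int4 p1 p2 p3 p4, q1, q2, q3, q4]
  unfold Tk
  congr 1
  have y1 : (-1 : ℂ) / ((c + μ) - (2 * k + 1) * a) = 1 / ((2 * k + 1) * a - (c + μ)) := by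
    rw [← neg_sub, div_neg, neg_div, neg_neg]
  have y2 : (-1 : ℂ) / (-(c + μ) - (2 * k + 1) * a) = 1 / ((2 * k + 1) * a + (c + μ)) := by
    rw [← neg_add', div_neg, neg_div, neg_neg, add_comm]
  have y3 : (-1 : ℂ) / ((c - μ) - (2 * k + 1) * a) = 1 / ((2 * k + 1) * a - (c - μ)) := by
    rw [← neg_sub, div_neg, neg_div, neg_neg]
  have y4 : (-1 : ℂ) / (-(c - μ) - (2 * k + 1) * a) = 1 / ((2 * k + 1) * a + (c - μ)) := by
    rw [← neg_add', div_neg, neg_div, neg_neg, add_comm]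
  rw [y1, y2, y3, y4]

theorem geom (ha : 0 < a) (c : ℝ) (μ : ℂ) {τ : ℝ} (hτ : 0 < τ) (N : ℕ) :
    ∑ k ∈ Finset.range N, 2 * Complex.cosh (μ * τ) * Complex.sinh (c * τ)
      * Complex.exp (-((2 * k + 1) * a) * τ)
      = FF a c μ τ - FF a c μ τ * (Real.exp (-(2 * N * a * τ)) : ℝ) := by
  have h2 : 0 < Real.sinh (a * τ) := Real.sinh_pos_iff.2 (by positivity)
  have h3 : (Complex.sinh (a * τ) : ℂ) ≠ 0 := by
    rw [← Complex.ofReal_mul, ← Complex.ofReal_sinh]
    exact_mod_cast h2.ne'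
  have hW : (Wk a c τ : ℂ) = Complex.sinh (c * τ) / Complex.sinh (a * τ) := by
    unfold Wk; push_cast; rfl
  unfold FF
  rw [hW]
  induction N with
  | zero => simp
  | succ N ih =>
    rw [Finset.sum_range_succ, ih]
    have e1 : (Real.exp (-(2 * ((N + 1 : ℕ) : ℝ) * a * τ)) : ℂ)
        = (Real.exp (-(2 * N * a * τ)) : ℂ) * (Complex.exp (-(a * τ)) * Complex.exp (-(a * τ))) := by
      push_cast
      rw [← Complex.exp_add, ← Complex.exp_add]
      congr 1
      ring
    have e2 : Complex.exp (-((2 * N + 1) * a) * τ)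
        = (Real.exp (-(2 * N * a * τ)) : ℂ) * Complex.exp (-(a * τ)) := by
      push_cast
      rw [← Complex.exp_add]
      congr 1
      ring
    rw [e1, e2]
    have e3 : Complex.exp (-(a * τ)) * Complex.exp (a * τ) = 1 := by
      rw [← Complex.exp_add]; simp
    have e4 : Complex.sinh (a * τ) = (Complex.exp (a * τ) - Complex.exp (-(a * τ))) / 2 := rfl
    have e5 : 1 - Complex.exp (-(a * τ)) * Complex.exp (-(a * τ))
        = 2 * Complex.exp (-(a * τ)) * Complex.sinh (a * τ) := by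
      rw [e4]
      linear_combination -e3
    have e6 : Complex.exp (-(a * τ)) * Complex.exp (-(a * τ))
        = 1 - 2 * Complex.exp (-(a * τ)) * Complex.sinh (a * τ) := by
      rw [← e5]; ring
    rw [e6]
    clear e1 e2 e3 e4 e5 e6 ih hW
    generalize Complex.sinh (a * τ) = S at h3 ⊢
    generalize Complex.sinh (c * τ) = S'
    generalize Complex.cosh (μ * τ) = C
    generalize Complex.exp (-(a * τ)) = E
    generalize ((Real.exp (-(2 * N * a * τ)) : ℝ) : ℂ) = E'
    field_simp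
    ring

/-- the integral as a limit -/
theorem lim_Tk (ha : 0 < a) (hc : 0 < c) {μ : ℂ} (hμ : c + |μ.re| < a) :
    Tendsto (fun N : ℕ => ∑ k ∈ Finset.range N, Tk a c μ k) atTop
      (𝓝 (∫ τ in Ioi (0 : ℝ), FF a c μ τ)) := by
  have h0 : 0 < a - c - |μ.re| := by linarith
  have hca : c < a := by linarith [abs_nonneg μ.re]
  have hint := FF_int ha hc hμ
  have hbd : ∀ N : ℕ, ∀ τ : ℝ, 0 < τ →
      ‖FF a c μ τ * (Real.exp (-(2 * N * a * τ)) : ℝ)‖
        ≤ Real.exp (-((a - c - |μ.re| + 2 * N * a) * τ)) := by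
    intro N τ hτ
    rw [norm_mul, Complex.norm_real, Real.norm_of_nonneg (Real.exp_pos _).le]
    refine (mul_le_mul_of_nonneg_right (FF_bound ha hc hca μ hτ) (Real.exp_pos _).le).trans_eq ?_
    rw [← Real.exp_add]
    congr 1
    ring
  have hpos : ∀ N : ℕ, 0 < a - c - |μ.re| + 2 * N * a := fun N => by positivity
  have hint2 : ∀ N : ℕ, IntegrableOn (fun τ : ℝ => FF a c μ τ * (Real.exp (-(2 * N * a * τ)) : ℝ))
      (Ioi 0) := by
    intro N
    refine Integrable.mono' (exp_intOn (hpos N)) ?_ ?_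
    · have : Measurable fun τ : ℝ => ((Real.exp (-(2 * N * a * τ)) : ℝ) : ℂ) := by fun_prop
      exact ((FF_meas a c μ).mul this).aestronglyMeasurable
    · exact (ae_restrict_iff' measurableSet_Ioi).2 (Eventually.of_forall fun s hs => hbd N s hs)
  have hsum : ∀ N : ℕ, ∑ k ∈ Finset.range N, Tk a c μ k
      = (∫ τ in Ioi (0 : ℝ), FF a c μ τ)
        - ∫ τ in Ioi (0 : ℝ), FF a c μ τ * (Real.exp (-(2 * N * a * τ)) : ℝ) := by
    intro N
    rw [← integral_sub hint (hint2 N)]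
    rw [← setIntegral_congr_fun measurableSet_Ioi (fun τ hτ => geom ha c μ hτ N)]
    rw [integral_finsetSum _ (fun k _ => (term_int ha hc hμ k).1)]
    exact Finset.sum_congr rfl fun k _ => ((term_int ha hc hμ k).2).symm
  have hz : Tendsto (fun N : ℕ => ∫ τ in Ioi (0 : ℝ), FF a c μ τ * (Real.exp (-(2 * N * a * τ)) : ℝ))
      atTop (𝓝 0) := by
    have h1 : Tendsto (fun N : ℕ => 1 / (a - c - |μ.re| + 2 * N * a)) atTop (𝓝 0) := by
      apply Tendsto.const_div_atTop
      apply tendsto_atTop_add_const_left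
      have : Tendsto (fun N : ℕ => (N : ℝ) * (2 * a)) atTop atTop :=
        tendsto_natCast_atTop_atTop.atTop_mul_const (by positivity)
      exact this.congr fun N => by ring
    refine squeeze_zero_norm (fun N => ?_) h1
    refine (norm_integral_le_of_norm_le (exp_intOn (hpos N))
      ((ae_restrict_iff' measurableSet_Ioi).2 (Eventually.of_forall fun s hs => hbd N s hs))).trans ?_
    have h2 := integral_exp_mul_Ioi (a := -(a - c - |μ.re| + 2 * N * a)) (by linarith [hpos N]) 0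
    simp only [mul_zero, Real.exp_zero, neg_mul] at h2
    rw [h2]
    apply le_of_eq
    rw [neg_div_neg_eq]
  have := hz.const_sub (∫ τ in Ioi (0 : ℝ), FF a c μ τ)
  rw [sub_zero] at this
  exact this.congr fun N => (hsum N).symm

/-- the points of the cotangents are not integers -/
theorem mem_ic (ha : 0 < a) {x : ℂ} (hx : |x.re| < a) :
    x / (2 * a) + 1 / 2 ∈ Complex.integerComplement := by
  rw [Complex.mem_integerComplement_iff]
  rintro ⟨n, hn⟩
  have h1 := congrArg Complex.re hn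
  have h2 : (x / (2 * a) + 1 / 2 : ℂ).re = x.re / (2 * a) + 1 / 2 := by
    have : (2 * a : ℂ) = ((2 * a : ℝ) : ℂ) := by push_cast; rfl
    rw [this, Complex.add_re, Complex.div_ofReal_re]
    norm_num
  rw [h2, Complex.intCast_re] at h1
  have h3 := abs_lt.1 hx
  have h4 : -(1 / 2) < x.re / (2 * a) := by
    rw [lt_div_iff₀ (by positivity)]; linarith [h3.1]
  have h5 : x.re / (2 * a) < 1 / 2 := by
    rw [div_lt_iff₀ (by positivity)]; linarith [h3.2]
  have h6 : (0 : ℝ) < n := by rw [h1]; linarith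
  have h7 : (n : ℝ) < 1 := by rw [h1]; linarith
  have h8 : (0 : ℤ) < n := by exact_mod_cast h6
  have h9 : n < (1 : ℤ) := by exact_mod_cast h7
  omega

theorem lim_cot (ha : 0 < a) {x : ℂ} (hx : |x.re| < a) :
    Tendsto (fun N : ℕ => ∑ k ∈ Finset.range N,
      (1 / ((2 * k + 1) * a - x) - 1 / ((2 * k + 1) * a + x))) atTop
      (𝓝 (-(1 / (2 * a)) * (Real.pi * Complex.cot (Real.pi * (x / (2 * a) + 1 / 2))))) := by
  have hac : (a : ℂ) ≠ 0 := by exact_mod_cast ha.ne'
  have h1 := (cot_partial (mem_ic ha hx)).const_mul (-(1 / (2 * (a : ℂ))))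
  refine h1.congr fun N => ?_
  rw [Finset.mul_sum]
  refine Finset.sum_congr rfl fun k _ => ?_
  have e1 : x / (2 * a) + 1 / 2 - (k + 1) = -(((2 * k + 1) * a - x) / (2 * a)) := by
    field_simp; ring
  have e2 : x / (2 * a) + 1 / 2 + k = ((2 * k + 1) * a + x) / (2 * a) := by
    field_simp; ring
  have e3 : ∀ Z : ℂ, 1 / (2 * (a : ℂ)) * (2 * a / Z) = 1 / Z := by
    intro Z
    have : (2 * (a : ℂ)) ≠ 0 := mul_ne_zero two_ne_zero hac
    rw [← mul_div_assoc, one_div_mul_cancel this]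
  rw [e1, e2, div_neg, one_div_div, one_div_div]
  linear_combination e3 ((2 * k + 1) * a - x) - e3 ((2 * k + 1) * a + x)

/-- the value of the integral by cotangents -/
theorem int_cot (ha : 0 < a) (hc : 0 < c) {μ : ℂ} (hμ : c + |μ.re| < a) :
    ∫ τ in Ioi (0 : ℝ), FF a c μ τ = -(Real.pi / (4 * a)) *
      (Complex.cot (Real.pi * ((c + μ) / (2 * a) + 1 / 2))
        + Complex.cot (Real.pi * ((c - μ) / (2 * a) + 1 / 2))) := by
  have hac : (a : ℂ) ≠ 0 := by exact_mod_cast ha.ne'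
  have a1 := le_abs_self μ.re
  have a2 := neg_le_abs μ.re
  have hx1 : |((c : ℂ) + μ).re| < a := by
    rw [Complex.add_re, Complex.ofReal_re, abs_lt]; constructor <;> linarith
  have hx2 : |((c : ℂ) - μ).re| < a := by
    rw [Complex.sub_re, Complex.ofReal_re, abs_lt]; constructor <;> linarith
  have h1 := (((lim_cot ha hx1).add (lim_cot ha hx2)).const_mul (1 / 2 : ℂ))
  have h2 := lim_Tk ha hc hμ
  refine (tendsto_nhds_unique h2 (h1.congr fun N => ?_)).trans ?_
  · rw [← Finset.sum_add_distrib, Finset.mul_sum]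
    refine Finset.sum_congr rfl fun k _ => ?_
    unfold Tk
    ring
  · field_simp
    ring

theorem cot_add_cot {A B : ℂ} (hA : Complex.sin A ≠ 0) (hB : Complex.sin B ≠ 0) :
    Complex.cot A + Complex.cot B
      = 2 * Complex.sin (A + B) / (Complex.cos (A - B) - Complex.cos (A + B)) := by
  have h1 : Complex.cos (A - B) - Complex.cos (A + B) = 2 * (Complex.sin A * Complex.sin B) := by
    rw [Complex.cos_sub, Complex.cos_add]; ring
  rw [h1, Complex.cot, Complex.cot, Complex.sin_add]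
  field_simp
  ring

theorem int_val (ha : 0 < a) (hc : 0 < c) {μ : ℂ} (hμ : c + |μ.re| < a) :
    ∫ τ in Ioi (0 : ℝ), FF a c μ τ = -(Real.pi / (2 * a)) *
      Complex.sin (Real.pi * (c / a) + Real.pi) /
        (Complex.cos (Real.pi * (μ / a)) - Complex.cos (Real.pi * (c / a) + Real.pi)) := by
  have hac : (a : ℂ) ≠ 0 := by exact_mod_cast ha.ne'
  have a1 := le_abs_self μ.re
  have a2 := neg_le_abs μ.re
  have hx1 : |((c : ℂ) + μ).re| < a := by
    rw [Complex.add_re, Complex.ofReal_re, abs_lt]; constructor <;> linarith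
  have hx2 : |((c : ℂ) - μ).re| < a := by
    rw [Complex.sub_re, Complex.ofReal_re, abs_lt]; constructor <;> linarith
  rw [int_cot ha hc hμ, cot_add_cot (sin_pi_mul_ne_zero (mem_ic ha hx1))
    (sin_pi_mul_ne_zero (mem_ic ha hx2))]
  have e1 : (Real.pi : ℂ) * ((c + μ) / (2 * a) + 1 / 2) + Real.pi * ((c - μ) / (2 * a) + 1 / 2)
      = Real.pi * (c / a) + Real.pi := by field_simp; ring
  have e2 : (Real.pi : ℂ) * ((c + μ) / (2 * a) + 1 / 2) - Real.pi * ((c - μ) / (2 * a) + 1 / 2)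
      = Real.pi * (μ / a) := by field_simp; ring
  rw [e1, e2]
  field_simp
  ring

end

/-- in terms of `b` -/
theorem int_b {b : ℝ} (hb : b ∈ Ioo (1 : ℝ) 2) {μ : ℂ}
    (hμ : |μ.re| < 2 * (Real.pi / b) - Real.pi) :
    IntegrableOn (FF (Real.pi / b) (Real.pi - Real.pi / b) μ) (Ioi 0) ∧
    ∫ τ in Ioi (0 : ℝ), FF (Real.pi / b) (Real.pi - Real.pi / b) μ τ
      = b / 2 * (-Complex.sin (b * Real.pi)) / (Complex.cos (b * μ) - Complex.cos (b * Real.pi)) := by
  have hp := Real.pi_pos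
  have hb0 : 0 < b := by linarith [hb.1]
  have ha : 0 < Real.pi / b := by positivity
  have hc : 0 < Real.pi - Real.pi / b := by
    have : Real.pi / b < Real.pi := by
      rw [div_lt_iff₀ hb0]; nlinarith [hb.1]
    linarith
  have hμ' : Real.pi - Real.pi / b + |μ.re| < Real.pi / b := by linarith
  refine ⟨FF_int ha hc hμ', ?_⟩
  rw [int_val ha hc hμ']
  have hbc : (b : ℂ) ≠ 0 := by exact_mod_cast hb0.ne'
  have hpc : (Real.pi : ℂ) ≠ 0 := by exact_mod_cast hp.ne'
  have e1 : (Real.pi : ℂ) * (((Real.pi - Real.pi / b : ℝ) : ℂ) / ((Real.pi / b : ℝ) : ℂ)) + Real.pi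
      = b * Real.pi := by
    push_cast
    field_simp
    ring
  have e2 : (Real.pi : ℂ) * (μ / ((Real.pi / b : ℝ) : ℂ)) = b * μ := by
    push_cast
    field_simp
  have e3 : -((Real.pi : ℂ) / (2 * ((Real.pi / b : ℝ) : ℂ))) = -(b / 2) := by
    push_cast
    field_simp
  rw [e1, e2, e3]
  ring

/-- **Module U_FOUR.** -/
theorem four : FourStmt := by
  intro b hb
  have hp := Real.pi_pos
  have hb0 : 0 < b := by linarith [hb.1]
  have hgt : 0 < 2 * (Real.pi / b) - Real.pi := by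
    have : Real.pi / 2 < Real.pi / b := div_lt_div_of_pos_left hp hb0 hb.2
    linarith
  refine ⟨fun φ h0 h1 => ?_, fun u => ?_⟩
  · obtain ⟨i1, i2⟩ := int_b hb (μ := ((2 * φ : ℝ) : ℂ)) (by
      rw [Complex.ofReal_re, abs_of_nonneg (by positivity)]; linarith)
    have e : ∀ τ : ℝ, FF (Real.pi / b) (Real.pi - Real.pi / b) ((2 * φ : ℝ) : ℂ) τ
        = ((Real.cosh (2 * τ * φ) * WW b τ : ℝ) : ℂ) := by
      intro τ
      unfold FF Wk WW
      rw [Complex.ofReal_mul (Real.cosh _), Complex.ofReal_cosh]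
      congr 2
      push_cast
      ring
    have e' : FF (Real.pi / b) (Real.pi - Real.pi / b) ((2 * φ : ℝ) : ℂ)
        = fun τ : ℝ => ((Real.cosh (2 * τ * φ) * WW b τ : ℝ) : ℂ) := funext e
    rw [e'] at i1 i2
    refine ⟨?_, ?_⟩
    · have h : IntegrableOn (fun τ : ℝ => Complex.re ((Real.cosh (2 * τ * φ) * WW b τ : ℝ) : ℂ))
        (Ioi 0) := i1.re
      simpa only [Complex.ofReal_re] using h
    · have i2 := (integral_ofReal (𝕜 := ℂ) (μ := volume.restrict (Ioi (0 : ℝ)))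
        (f := fun τ : ℝ => Real.cosh (2 * τ * φ) * WW b τ)).symm.trans i2
      have h2 : ((∫ τ in Ioi (0 : ℝ), Real.cosh (2 * τ * φ) * WW b τ : ℝ) : ℂ)
          = ((b / 2 * (-Real.sin (b * Real.pi)) / (Real.cos (2 * b * φ) - Real.cos (b * Real.pi)) : ℝ)
            : ℂ) := by
        refine i2.trans ?_
        push_cast
        rw [show (b : ℂ) * (2 * φ) = 2 * b * φ by ring]
      exact_mod_cast h2
  · obtain ⟨i1, i2⟩ := int_b hb (μ := ((2 * u : ℝ) : ℂ) * Complex.I) (by
      simp only [Complex.mul_re, Complex.ofReal_re, Complex.ofReal_im, Complex.I_re, Complex.I_im]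
      simpa using hgt)
    have e : ∀ τ : ℝ, FF (Real.pi / b) (Real.pi - Real.pi / b) (((2 * u : ℝ) : ℂ) * Complex.I) τ
        = ((Real.cos (2 * τ * u) * WW b τ : ℝ) : ℂ) := by
      intro τ
      unfold FF Wk WW
      rw [Complex.ofReal_mul (Real.cos _), Complex.ofReal_cos]
      congr 1
      rw [show ((2 * u : ℝ) : ℂ) * Complex.I * τ = (((2 * τ * u : ℝ) : ℂ)) * Complex.I by
        push_cast; ring, Complex.cosh_mul_I]
    have e' : FF (Real.pi / b) (Real.pi - Real.pi / b) (((2 * u : ℝ) : ℂ) * Complex.I)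
        = fun τ : ℝ => ((Real.cos (2 * τ * u) * WW b τ : ℝ) : ℂ) := funext e
    rw [e'] at i2
    have i2 := (integral_ofReal (𝕜 := ℂ) (μ := volume.restrict (Ioi (0 : ℝ)))
      (f := fun τ : ℝ => Real.cos (2 * τ * u) * WW b τ)).symm.trans i2
    have h2 : ((∫ τ in Ioi (0 : ℝ), Real.cos (2 * τ * u) * WW b τ : ℝ) : ℂ)
        = ((Pool.Agent.AEU.H12.KKf b (2 * u) : ℝ) : ℂ) := by
      refine i2.trans ?_
      unfold Pool.Agent.AEU.H12.KKf
      push_cast
      rw [show (b : ℂ) * (2 * u * Complex.I) = (b * (2 * u)) * Complex.I by ring, Complex.cos_mul_I]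
    exact_mod_cast h2

end Pool.Agent.XQ.U.H12
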