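import Pool.Agent.Helper16_XQ.Ana2

/-!
Squad XQ (MP_5b0138_an), module U (uniqueness of the sums of the germs at one level), split into
modules (helper12).  Proofs: /team-store/XQ_planU.md and /team-store/XQ_planU12.md.
-/

set_option autoImplicit false

namespace Pool.Agent.XQ.U

open MeasureTheory Filter Topology Real Set Pool.Agent.AEU Pool.Agent.AEU.H12 Pool.Agent.XQ

/-! ### Orders -/

/-- LEADB: Laplace's method for real analytic even bounded functions -/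
def LeadBStmt : Prop :=
  ∀ (L : ℝ) (f : ℝ → ℝ), 0 < L → AnalyticOnNhd ℝ f univ → (∀ v, f (-v) = f v) →
    (∃ M : ℝ, ∀ v, |f v| ≤ M) →
    f = 0 ∨ ∃ (j : ℕ) (c : ℝ), c ≠ 0 ∧
      Lead (fun κ => ∫ v : ℝ, rexp (-(κ * L * cosh v)) * f v) L (1 / 2 + j) c

/-- LEADA: Watson's lemma for a density which is analytic at the end point -/
def LeadAStmt : Prop :=
  ∀ (L M : ℝ) (D : ℝ → ℝ), 0 < L → AnalyticAt ℝ D 1 → Measurable D →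
    (∀ s, 1 < s → |D s| ≤ M) →
    (∀ᶠ s in 𝓝 (1 : ℝ), D s = 0) ∨ ∃ (m : ℕ) (c : ℝ), c ≠ 0 ∧
      Lead (fun κ => ∫ s in Ioi (1 : ℝ), rexp (-(κ * L * s)) * D s) L (m + 1) c

/-- SEP: separation of the orders -/
def SepStmt : Prop :=
  ∀ (L : ℝ) (fA fB T : ℝ → ℝ), 0 < L →
    (fA = 0 ∨ ∃ (m : ℕ) (c : ℝ), 3 ≤ m ∧ c ≠ 0 ∧ Lead fA L m c) →
    (fB = 0 ∨ ∃ (j : ℕ) (c : ℝ), c ≠ 0 ∧ Lead fB L (1 / 2 + j) c) →
    (T = 0 ∨ Ord L 1 T ∨ Ord L 1 (-T) ∨ Ord L 2 T ∨ Ord L 2 (-T)) →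
    Small L (fun κ => fA κ + fB κ + T κ) → fA = 0 ∧ fB = 0 ∧ T = 0

/-! ### The two groups -/

/-- conclusion for the items of type A -/
def ConA (AP AQ : List (ℝ × ℝ)) : Prop :=
  (AP = [] ∧ AQ = []) ∨ ∃ p q, AP = [p] ∧ AQ = [q] ∧ (p = q ∨ p = q.swap)

/-- conclusion for the items of the types B, H, E -/
def ConB (BP BQ : List (ℝ × ℝ)) (HQ : List ℝ) (EP : List (ℝ × ℝ × ℝ)) : Prop :=
  HQ = [] ∧ EP = [] ∧ ((BP = [] ∧ BQ = []) ∨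
    ∃ p q, BP = [p] ∧ BQ = [q] ∧ p.1 = q.1 ∧ (p.2 = q.2 ∨ p.2 = q.1 - q.2))

/-- ALTA: the group A vanishes or has an exact order `m ≥ 3` -/
def AltAStmt : Prop :=
  ∀ (L : ℝ) (AP AQ : List (ℝ × ℝ)), 0 < L → AP.length ≤ 1 → (∀ p ∈ AP, OkA p) →
    (∀ p ∈ AQ, OkA p) →
    (ConA AP AQ ∧ (fun κ => SumA L AP κ - SumA L AQ κ) = 0) ∨ ∃ (m : ℕ) (c : ℝ), 3 ≤ m ∧ c ≠ 0 ∧
      Lead (fun κ => SumA L AP κ - SumA L AQ κ) L m c

/-- ALTB: the group of the types B, H, E vanishes or has an exact half-integer order -/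
def AltBStmt : Prop :=
  ∀ (L : ℝ) (BP BQ : List (ℝ × ℝ)) (HQ : List ℝ) (EP : List (ℝ × ℝ × ℝ)), 0 < L →
    BP.length ≤ 1 → (∀ p ∈ BP, OkB p) → (∀ p ∈ BQ, OkB p) →
    (∀ α ∈ HQ, Real.pi / 2 < α ∧ α < Real.pi) → (∀ p ∈ EP, OkE p) →
    EP.Pairwise (fun p q => p.1 ≠ q.1) →
    (ConB BP BQ HQ EP ∧
      (fun κ => SumB L BP κ + SumE L EP κ - (SumB L BQ κ + SumH L HQ κ)) = 0) ∨
    ∃ (j : ℕ) (c : ℝ), c ≠ 0 ∧
      Lead (fun κ => SumB L BP κ + SumE L EP κ - (SumB L BQ κ + SumH L HQ κ)) L (1 / 2 + j) c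

/-- UASM: assembly of U -/
def UasmStmt : Prop := SepStmt → AltAStmt → AltBStmt → UStmt

/-! ### B, H, E: the densities -/

/-- density of type B -/
noncomputable def fB (p : ℝ × ℝ) (v : ℝ) : ℝ := Ceta (π / p.1) p.2 - KKf (π / p.1) (2 * v)

/-- density of type H -/
noncomputable def fH (α v : ℝ) : ℝ := 1 / 2 * (KKf (π / α) 0 - KKf (π / α) (2 * v))

/-- density of type E -/
noncomputable def fE (p : ℝ × ℝ × ℝ) (v : ℝ) : ℝ :=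
  2 * (Ceta (π / p.1) p.2.2 - KKt (π / p.1) p.2.1 v)

/-- the sum of the densities -/
noncomputable def gBHE (BP BQ : List (ℝ × ℝ)) (HQ : List ℝ) (EP : List (ℝ × ℝ × ℝ)) (v : ℝ) : ℝ :=
  (BP.map fun p => fB p v).sum + (EP.map fun p => fE p v).sum
    - ((BQ.map fun p => fB p v).sum + (HQ.map fun α => fH α v).sum)

/-- REGB: the densities are analytic, even and bounded, and the sums of the germs are their
transforms -/
def RegBStmt : Prop :=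
  ∀ (L : ℝ) (BP BQ : List (ℝ × ℝ)) (HQ : List ℝ) (EP : List (ℝ × ℝ × ℝ)), 0 < L →
    (∀ p ∈ BP, OkB p) → (∀ p ∈ BQ, OkB p) →
    (∀ α ∈ HQ, Real.pi / 2 < α ∧ α < Real.pi) → (∀ p ∈ EP, OkE p) →
    AnalyticOnNhd ℝ (gBHE BP BQ HQ EP) univ ∧ (∀ v, gBHE BP BQ HQ EP (-v) = gBHE BP BQ HQ EP v) ∧
    (∃ M : ℝ, ∀ v, |gBHE BP BQ HQ EP v| ≤ M) ∧
    ∀ κ : ℝ, 0 < κ → SumB L BP κ + SumE L EP κ - (SumB L BQ κ + SumH L HQ κ) =
      1 / π * ∫ v : ℝ, rexp (-(κ * L * cosh v)) * gBHE BP BQ HQ EP v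

/-- COREB: uniqueness for the densities (step 4 of the plan) -/
def CoreBStmt : Prop :=
  ∀ (BP BQ : List (ℝ × ℝ)) (HQ : List ℝ) (EP : List (ℝ × ℝ × ℝ)),
    BP.length ≤ 1 → (∀ p ∈ BP, OkB p) → (∀ p ∈ BQ, OkB p) →
    (∀ α ∈ HQ, Real.pi / 2 < α ∧ α < Real.pi) → (∀ p ∈ EP, OkE p) →
    EP.Pairwise (fun p q => p.1 ≠ q.1) → (∀ v : ℝ, gBHE BP BQ HQ EP v = 0) → ConB BP BQ HQ EP

/-! ### A: the density -/

/-- the singularity of the kernel: `cos² (π / b)` -/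
noncomputable def zb (b : ℝ) : ℝ := cos (π / b) ^ 2

/-- the kernel as a function of `ζ = - sinh² (u / 2) = sin² (φ / 2)` -/
noncomputable def FR (b ζ : ℝ) : ℝ :=
  if 0 ≤ ζ then b / 2 * (-sin (b * π)) / (cos (2 * b * arcsin (√ζ)) - cos (b * π))
  else KKf b (2 * arsinh (√(-ζ)))

/-- the second variable -/
noncomputable def YY (z t : ℝ) : ℝ := z * cos t ^ 2 / (1 - z * sin t ^ 2)

/-- the difference of the values of the kernel at the two variables -/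
noncomputable def dF (b z t : ℝ) : ℝ := FR b (z * sin t ^ 2) - FR b (YY z t)

/-- the density of type A as a function of `z = 1 - s²` -/
noncomputable def DR (b b' z : ℝ) : ℝ :=
  2 * ∫ t in Ioo 0 (π / 2), dF b z t * dF b' z t / √(1 - z * sin t ^ 2)

/-- normalising integral -/
noncomputable def NN (b z : ℝ) : ℝ :=
  ∫ t in Ioo 0 (π / 2), |dF b z t| / √(1 - z * sin t ^ 2)

/-- `F_x (ζ_b) - F_x (0)` -/
noncomputable def Del (b x : ℝ) : ℝ := FR x (zb b) - FR x 0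

/-- REP: the representation of the germ (change of variables) -/
def RepStmt : Prop :=
  ∀ b b' a : ℝ, b ∈ Ioo (1 : ℝ) 2 → b' ∈ Ioo (1 : ℝ) 2 → 0 < a →
    TA b b' a = ∫ s in Ioi (1 : ℝ), rexp (-(2 * a * s)) * DR b b' (1 - s ^ 2)

/-- DBD: the density is measurable, and bounded on the physical side; symmetry -/
def DbdStmt : Prop :=
  (∀ b b' : ℝ, Measurable (DR b b')) ∧ (∀ b b' z : ℝ, DR b b' z = DR b' b z) ∧
  ∀ b b' : ℝ, b ∈ Ioo (1 : ℝ) 2 → b' ∈ Ioo (1 : ℝ) 2 → ∃ M : ℝ, ∀ z : ℝ, z ≤ 0 → |DR b b' z| ≤ M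

/-- SINX: power series of `cosh (2 τ arcsin x)` and `cos (2 τ arsinh x)` -/
def SinxStmt : Prop :=
  ∃ c : ℕ → ℝ → ℝ, (∀ m, Continuous (c m)) ∧ (∀ m τ, 0 ≤ c m τ) ∧
    (∀ τ x : ℝ, 0 ≤ x → x < 1 → HasSum (fun m => c m τ * x ^ (2 * m)) (cosh (2 * τ * arcsin x))) ∧
    ∀ τ x : ℝ, 0 ≤ x → x < 1 →
      HasSum (fun m => c m τ * (-1) ^ m * x ^ (2 * m)) (cos (2 * τ * arsinh x))

/-- the weight -/
noncomputable def WW (b τ : ℝ) : ℝ := sinh ((π - π / b) * τ) / sinh (π / b * τ)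

/-- FOUR: the kernel as an integral of plane waves, on the real and on the imaginary axis -/
def FourStmt : Prop :=
  ∀ b : ℝ, b ∈ Ioo (1 : ℝ) 2 →
    (∀ φ : ℝ, 0 ≤ φ → φ < π / b - π / 2 →
      IntegrableOn (fun τ => cosh (2 * τ * φ) * WW b τ) (Ioi 0) ∧
      ∫ τ in Ioi (0 : ℝ), cosh (2 * τ * φ) * WW b τ
        = b / 2 * (-sin (b * π)) / (cos (2 * b * φ) - cos (b * π))) ∧
    ∀ u : ℝ, ∫ τ in Ioi (0 : ℝ), cos (2 * τ * u) * WW b τ = KKf b (2 * u)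

/-- FSER: the kernel is a power series with nonnegative coefficients in the full disc -/
def FserStmt : Prop :=
  ∀ b : ℝ, b ∈ Ioo (1 : ℝ) 2 → ∃ f : ℕ → ℝ, (∀ m, 0 ≤ f m) ∧
    ∀ ζ : ℝ, |ζ| < zb b → HasSum (fun m => f m * ζ ^ m) (FR b ζ)

/-- HOL: the density is analytic up to the singularity -/
def HolStmt : Prop :=
  ∀ b b' m : ℝ, b ∈ Ioo (1 : ℝ) 2 → b' ∈ Ioo (1 : ℝ) 2 → m ≤ zb b → m ≤ zb b' →
    AnalyticOnNhd ℝ (DR b b') (Ioo (-m) m)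

/-- SING: behaviour at the singularity of the largest `b` -/
def SingStmt : Prop :=
  ∀ b : ℝ, b ∈ Ioo (1 : ℝ) 2 →
    0 < zb b ∧ (∀ x, x ∈ Ioo 1 b → zb b < zb x) ∧
    Tendsto (NN b) (𝓝[<] zb b) atTop ∧
    (∀ x, x ∈ Ioo 1 b → Tendsto (fun z => DR b x z / NN b z) (𝓝[<] zb b) (𝓝 (2 * Del b x))) ∧
    (∀ x y, x ∈ Ioo 1 b → y ∈ Ioo 1 b →
      Tendsto (fun z => DR x y z / NN b z) (𝓝[<] zb b) (𝓝 0)) ∧
    Tendsto (fun z => DR b b z / NN b z) (𝓝[<] zb b) atTop ∧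
    ∀ x y z, x ∈ Ioc 1 b → y ∈ Ioc 1 b → 0 ≤ z → z < zb b → 0 ≤ DR x y z

/-- MONO: monotonicity -/
def MonoStmt : Prop :=
  (∀ x, x ∈ Ioo (1 : ℝ) 2 → 0 < FA x) ∧
  (∀ x y, x ∈ Ioo (1 : ℝ) 2 → y ∈ Ioo (1 : ℝ) 2 → x < y → FA x < FA y) ∧
  ∀ b x y, b ∈ Ioo (1 : ℝ) 2 → x ∈ Ioo 1 b → y ∈ Ioo 1 b → x < y →
    0 < Del b x ∧ Del b x / FA x < Del b y / FA y

/-- the two parameters of an item -/
noncomputable def bb (p : ℝ × ℝ) : ℝ × ℝ := (π / (π - p.1), π / (π - p.2))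

/-- LCA: the leading coefficients of the sum; the sum as a transform -/
def LcaStmt : Prop :=
  ∃ C : ℝ, 0 < C ∧ ∀ (L : ℝ) (l : List (ℝ × ℝ)), 0 < L → (∀ p ∈ l, OkA p) →
    Lead (SumA L l) L 3 (C / L ^ 3 * (l.map fun p => FA (bb p).1 * FA (bb p).2).sum)

/-- COREA: uniqueness for the densities (step 5 of the plan) -/
def CoreAStmt : Prop :=
  ∀ (AP AQ : List (ℝ × ℝ)), AP.length ≤ 1 →
    (∀ p ∈ AP, p.1 ∈ Ioo (1 : ℝ) 2 ∧ p.2 ∈ Ioo (1 : ℝ) 2) →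
    (∀ p ∈ AQ, p.1 ∈ Ioo (1 : ℝ) 2 ∧ p.2 ∈ Ioo (1 : ℝ) 2) →
    (AP.map fun p => FA p.1 * FA p.2).sum = (AQ.map fun p => FA p.1 * FA p.2).sum →
    (∀ᶠ z in 𝓝 (0 : ℝ), (AP.map fun p => DR p.1 p.2 z).sum = (AQ.map fun p => DR p.1 p.2 z).sum) →
    (AP = [] ∧ AQ = []) ∨ ∃ p q, AP = [p] ∧ AQ = [q] ∧ (p = q ∨ p = q.swap)

end Pool.Agent.XQ.U
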