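import Pool.Agent.Helper12_XQ.CoreA
import Pool.Agent.Helper12_XQ.AltA
import Pool.Agent.Helper12_XQ.Four
import Pool.Agent.Helper13_XQ.Rep
import Pool.Agent.Helper18_XQ.Sep
import Pool.Agent.Helper47_XQ.Fser
import Pool.Agent.Helper47_XQ.Mono
import Pool.Agent.Helper48_XQ.AltB
import Pool.Agent.Helper48_XQ.RegB
import Pool.Agent.Helper53_XQ.Lead
import Pool.Agent.Helper54_XQ.Dbd
import Pool.Agent.Helper54_XQ.Sinx
import Pool.Agent.Helper54_XQ.Sing
import Pool.Agent.Helper59_XQ.CoreB
import Pool.Agent.Helper81_XQ.Hol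

/-!
Squad XQ (MP_5b0138_an), module U: uniqueness of the sums of the germs at one level, assembly.
-/

set_option autoImplicit false

namespace Pool.Agent.XQ.U.H12

open Pool.Agent.XQ Pool.Agent.XQ.U

theorem uOfFour (hFour : FourStmt) : UStmt := by
  have hFser : FserStmt := H47.fser H54.sinx hFour
  have hHol : HolStmt := H81.hol hFser
  have hCoreA : CoreAStmt := corea hHol H54.sing H47.mono H54.dbd
  have hAltA : AltAStmt := altA H53.leadA H13.rep H54.dbd hHol H54.lca hCoreA
  have hAltB : AltBStmt := H48.altB H48.regB H59.coreB H53.leadB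
  exact H18.uasm H18.sep hAltA hAltB

/-- **Module U.** -/
theorem u : UStmt := uOfFour four

end Pool.Agent.XQ.U.H12
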